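import Pool.Agent.Helper65.HF.StC

/-!
Project HF (MP_b56c98_ag), module ALU: the version of ALP for upward closed sets.
-/

namespace Pool.Agent.Helper29.HF

open Pool.Agent.Helper65.HF

theorem hALU : Pool.Agent.Helper65.HF.sALU := by
  intro hALP M ν i t u a U hU
  have h := hALP M ν i t u a (fun τ => ¬ U τ) (fun τ hτ τ' hτ' hle h1 h2 =>
    h1 (hU τ hτ τ' hτ' hle h2))
  have e1 := num_add_not (tl M ν i t a) U
  have e2 := num_add_not (tl M ν i (t + u) a) (fun v => U (v.take t))
  set x := num (tl M ν i t a) U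
  set x' := num (tl M ν i t a) (fun τ => ¬ U τ)
  set y := num (tl M ν i (t + u) a) (fun v => U (v.take t))
  set y' := num (tl M ν i (t + u) a) (fun v => ¬ U (v.take t))
  have h' : x' * (tl M ν i (t + u) a).card ≤ y' * (tl M ν i t a).card := h
  rw [← e1, ← e2] at h' ⊢
  nlinarith

end Pool.Agent.Helper29.HF
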